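import Pool.Agent.R363.SD.Push

/-!
# The rank one abelian Stark conjecture in Tate's form: reduction to deep moduli

`K` is a number field, `ι` is an embedding of the algebraic closure of `K` into the complex numbers,
all archimedean places of `K` other than the place of `ι` are real, and there is at least one such
place.  The set `S` consists of the archimedean places and the prime divisors of an ideal `𝔪` which
is divisible by all primes above `2`, the extension `H` of `K` is contained in the ray class field
modulo `𝔪` and the real places other than that of `ι`, and the split place is that of `ι`.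

For every ideal `𝔣` of the ring of integers `C 𝔣` is the ray class field modulo `𝔣` and the real
places other than that of `ι`, with its Artin map.  (For `𝔣 = 0` this is `K` itself.)

Ray class fields, ray classes, partial zeta functions, differences and deep multiples are defined in
`Pool.Agent.R363.SD.Defs`, and Tate's form of the conjecture in `Pool.Agent.R363.SD.Defs2`.
-/

set_option autoImplicit false

open NumberField

namespace Pool.Agent.Results.MP_ca56d1_nt.DeepModuliTate

open Pool.Agent.R363.SD

/-- **Reduction to deep moduli.**  Let `𝔪` be a nonzero ideal divisible by all the primes above `2`.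
Suppose that for some `n`, `k` and some nonzero `𝔟`, every set `s` of `n` principal prime ideals
`𝔮 = (γ)` of prime norm, with `γ ≡ 1` modulo `𝔪` and coprime to `𝔟`, has a multiple `𝔣` of
`4 ^ (n + k) 𝔪 ∏ 𝔮` with the same prime divisors as `𝔪 ∏ 𝔮`, for which there are Stark units as in
Tate's form of the conjecture, in the ray class field modulo `𝔣`, for all `k`-fold differences of
`-ζ'(0, A)` along principal ideals `(γ)` with `γ ≡ 1` modulo `𝔪`.  Then Tate's form of the rank one
abelian Stark conjecture holds for every abelian extension of `K` contained in the ray class field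
modulo `𝔪`.  Conversely the conjecture for all abelian extensions contained in the ray class fields
of the multiples of `𝔪` implies this condition. -/
theorem result (K : Type) [Field K] [NumberField K] (ι : AlgebraicClosure K →+* ℂ)
    (hreal : ∀ φ : K →+* ℂ, InfinitePlace.mk φ ≠
      InfinitePlace.mk (ι.comp (algebraMap K (AlgebraicClosure K))) → ComplexEmbedding.IsReal φ)
    (hne : ∃ φ : K →+* ℂ, InfinitePlace.mk φ ≠
      InfinitePlace.mk (ι.comp (algebraMap K (AlgebraicClosure K))))
    (C : ∀ 𝔣 : Ideal (𝓞 K), RayClassField (otherReal ι) 𝔣) (n k : ℕ)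
    (𝔪 𝔟 : Ideal (𝓞 K)) (h𝔪 : 𝔪 ≠ ⊥) (h𝔟 : 𝔟 ≠ ⊥)
    (h2 : ∀ 𝔭 : Ideal (𝓞 K), 𝔭.IsPrime → (2 : 𝓞 K) ∈ 𝔭 → 𝔪 ≤ 𝔭) :
    (HoldsDeep (otherReal ι) (fun 𝔣 => TateOnIdeals ι (C 𝔣)) n k 𝔪 𝔟 →
      ∀ E : AbelianExtension (otherReal ι) 𝔪, E.Tate ι) ∧
    ((∀ 𝔣 : Ideal (𝓞 K), 𝔣 ≠ ⊥ → 𝔣 ≤ 𝔪 →
      ∀ E : AbelianExtension (otherReal ι) 𝔣, E.Tate ι) →
        HoldsDeep (otherReal ι) (fun 𝔣 => TateOnIdeals ι (C 𝔣)) n k 𝔪 𝔟) := by
  have key : ∀ φ : K →+* ℂ, InfinitePlace.mk φ ≠
      InfinitePlace.mk (ι.comp (algebraMap K (AlgebraicClosure K))) →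
      ∃ τ ∈ otherReal ι, φ = Complex.ofRealHom.comp τ := by
    intro φ hφ
    have hr := hreal φ hφ
    have h1 : φ = Complex.ofRealHom.comp hr.embedding := by
      ext x
      simp [ComplexEmbedding.IsReal.coe_embedding_apply]
    refine ⟨hr.embedding, fun h => hφ ?_, h1⟩
    rw [← h, ← h1]
  refine tate_form (R := otherReal ι) rfl ?_ (fun g hg => key _ hg) C n k 𝔪 𝔟 h𝔪 h𝔟 h2
  obtain ⟨φ, hφ⟩ := hne
  obtain ⟨τ, hτ, -⟩ := key φ hφ
  exact ⟨τ, hτ⟩

end Pool.Agent.Results.MP_ca56d1_nt.DeepModuliTate
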